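import Pool.Agent.ASE.Stmts6
import Pool.Agent.Helper45_ASO.HSM
import Pool.Agent.Helper25_K9.ROT

/-!
# Squad ASE, row HSG: the relations for `L1`, `L2` (after HSM, Helper45_ASO)
-/

set_option autoImplicit false

open scoped BigOperators

noncomputable section

namespace Pool.Agent.PP.SE.H74

open Pool.Agent.Helper51_AWC Pool.Agent.Helper79_WRA Pool.Agent.PP Pool.Agent.PP.KF
open Pool.Agent.PP.K9 Pool.Agent.PP.K9.H97 Pool.Agent.PP.H75 Pool.Agent.PP.T3 Pool.Agent.PP.SO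
open Pool.Agent.PP.SD Pool.Agent.PP.SO.H45

attribute [local instance] Ideal.Quotient.field

theorem hsg (hTe : HteStmt) (hRat : SO.HRatStmt) (hFro : SO.HFroStmt) (hFpr : SO.HFprStmt)
    (hFce : SO.HFceStmt) (hIxe : SO.HIxeStmt) : HsgStmt := by
  intro ℓ _ M _ hM V₀ G _ _ _ _ E₀ hex hV B hB
  classical
  have hℓ : ℓ.Prime := Fact.out
  have := Fintype.ofFinite V₀
  have := Fintype.ofFinite G
  have hfin : (IrrE M B.e).Finite := K9.H25.irrE_finite M B.e
  obtain ⟨-, -, -, hix⟩ := hIxe ℓ M hM V₀ E₀ G B hB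
  obtain ⟨-, hone⟩ := hFce ℓ M hM V₀ E₀ G B hB
  have hrat := hRat ℓ M hM V₀ hex E₀ G B hB
  set S : Finset (G → ℂ) := hfin.toFinset with hS
  have hmem : ∀ χ, χ ∈ S ↔ χ ∈ IrrE M B.e := fun χ => hfin.mem_toFinset
  have eL1 : ∀ c, L1 B c = ∑ χ ∈ S, cv (fc B ⊥ c) χ := fun c =>
    finsum_mem_eq_finite_toFinset_sum _ hfin
  have eL2 : ∀ c d, L2 B c d = ∑ χ ∈ S, cv (fc B ⊥ c) χ * cv (fc B ⊥ d) χ := fun c d =>
    finsum_mem_eq_finite_toFinset_sum _ hfin
  have ecard : (IrrE M B.e).ncard = S.card := Set.ncard_eq_toFinset_card _ hfin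
  refine ⟨?_, ?_⟩
  · intro c d hc hd
    choose! qc hqc1 hqc2 using hrat c hc
    choose! qd hqd1 hqd2 using hrat d hd
    refine ⟨∑ χ ∈ S, qc χ * qd χ, Subring.sum_mem _ fun χ hχ =>
      (SOR.Rl ℓ).mul_mem (hqc1 χ ((hmem χ).1 hχ)) (hqd1 χ ((hmem χ).1 hχ)), ?_⟩
    have e1 : ∑ t ∈ Finset.Icc 1 (ℓ - 1), ∑ s ∈ Finset.Icc 1 (ℓ - 1), L2 B (c ^ t) (d ^ s) =
        ∑ χ ∈ S, (∑ t ∈ Finset.Icc 1 (ℓ - 1), cv (fc B ⊥ (c ^ t)) χ) *
          ∑ s ∈ Finset.Icc 1 (ℓ - 1), cv (fc B ⊥ (d ^ s)) χ := by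
      rw [Finset.sum_congr rfl fun t _ => Finset.sum_congr rfl fun s _ => eL2 (c ^ t) (d ^ s)]
      rw [Finset.sum_congr rfl fun t _ => Finset.sum_comm, Finset.sum_comm]
      refine Finset.sum_congr rfl fun χ _ => ?_
      rw [Finset.sum_mul_sum]
    have e2 : ∀ c : V₀, ∑ t ∈ Finset.Icc 1 (ℓ - 1), L1 B (c ^ t) =
        ∑ χ ∈ S, ∑ t ∈ Finset.Icc 1 (ℓ - 1), cv (fc B ⊥ (c ^ t)) χ := by
      intro c
      rw [Finset.sum_congr rfl fun t _ => eL1 (c ^ t), Finset.sum_comm]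
    have e3 : ((IrrE M B.e).ncard : ℂ) = ∑ χ ∈ S, (1 : ℂ) := by
      rw [ecard]
      simp
    rw [e1, e2 c, e2 d, e3, Finset.mul_sum, Finset.mul_sum, Finset.mul_sum,
      ← Finset.sum_add_distrib, ← Finset.sum_add_distrib, ← Finset.sum_add_distrib]
    rw [Rat.cast_mul, Rat.cast_sum, Finset.mul_sum]
    refine Finset.sum_congr rfl fun χ hχ => ?_
    rw [hqc2 χ ((hmem χ).1 hχ), hqd2 χ ((hmem χ).1 hχ)]
    push_cast
    ring
  · -- the sum over all elements
    have hR : ∀ χ ∈ S, ∃ q ∈ SOR.Rl ℓ,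
        ∑ c : V₀, (Nat.card (Es E₀ c) : ℂ) * cv (fc B ⊥ c) χ = ((ℓ ^ 2 * q : ℚ) : ℂ) := by
      intro χ hχ
      have hχ' := (hmem χ).1 hχ
      have hχI : χ ∈ Irr G := hχ'.1
      have hℓC : (ℓ : ℂ) ≠ 0 := by exact_mod_cast hℓ.ne_zero
      set R : ℂ := ∑ c : V₀, (Nat.card (Es E₀ c) : ℂ) * cv (fc B ⊥ c) χ with hRdef
      -- rational
      have hRQ : R ∈ QC := by
        have h1 : ∀ t ∈ Finset.Icc 1 (ℓ - 1),
            ∑ c : V₀, (Nat.card (Es E₀ c) : ℂ) * cv (fc B ⊥ (c ^ t)) χ = R := by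
          intro t ht
          have ht' := Finset.mem_Icc.1 ht
          have hc := cop hℓ hV ht'.1 ht'.2
          rw [hRdef, ← Equiv.sum_comp (powCoprime hc)
            fun c => (Nat.card (Es E₀ c) : ℂ) * cv (fc B ⊥ c) χ]
          refine Finset.sum_congr rfl fun c _ => ?_
          rw [powCoprime_apply, Es_pow hc]
        have h2 : ((ℓ - 1 : ℕ) : ℂ) * R = ∑ c : V₀, (Nat.card (Es E₀ c) : ℂ) *
            ∑ t ∈ Finset.Icc 1 (ℓ - 1), cv (fc B ⊥ (c ^ t)) χ := by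
          have h3 : ∑ t ∈ Finset.Icc 1 (ℓ - 1),
              ∑ c : V₀, (Nat.card (Es E₀ c) : ℂ) * cv (fc B ⊥ (c ^ t)) χ =
              ∑ t ∈ Finset.Icc 1 (ℓ - 1), R := Finset.sum_congr rfl h1
          rw [Finset.sum_const, Nat.card_Icc, Nat.add_sub_cancel, nsmul_eq_mul] at h3
          rw [← h3, Finset.sum_comm]
          refine Finset.sum_congr rfl fun c _ => ?_
          rw [Finset.mul_sum]
        have h4 : ((ℓ - 1 : ℕ) : ℂ) * R ∈ QC := by
          rw [h2]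
          refine Subfield.sum_mem _ fun c _ => QC.mul_mem (nat_QC _) ?_
          by_cases hc : c = 1
          · subst hc
            have h5 : ∀ t ∈ Finset.Icc 1 (ℓ - 1), cv (fc B ⊥ ((1 : V₀) ^ t)) χ = 1 := by
              intro t _
              rw [one_pow, hone χ hχ']
            rw [Finset.sum_congr rfl h5, Finset.sum_const, nsmul_eq_mul, mul_one]
            exact nat_QC _
          · obtain ⟨q, -, hq⟩ := hrat c hc χ hχ'
            rw [hq]
            exact mem_QC _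
        have h5 : ((ℓ - 1 : ℕ) : ℂ) ≠ 0 := by
          have : ℓ - 1 ≠ 0 := by
            have := hℓ.two_le
            omega
          exact_mod_cast this
        have h6 : R = ((ℓ - 1 : ℕ) : ℂ) * R / ((ℓ - 1 : ℕ) : ℂ) := by
          field_simp
        rw [h6]
        exact QC.div_mem h4 (nat_QC _)
      obtain ⟨ρ, hρ⟩ := hRQ
      have hρ' : (ρ : ℂ) = R := hρ
      -- in the local ring
      have hRM : R / (ℓ : ℂ) ^ 2 ∈ RM M := by
        obtain ⟨-, x, y, hx, hy, hxy⟩ := hTe ℓ M hM V₀ G E₀ hex hV B hB χ hχ'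
        have h1 := hFro ℓ M hM G χ hχI
        rw [hFpr ℓ M hM V₀ E₀ G B hB χ hχ'] at h1
        have hG0 : Nat.card G ≠ 0 := Nat.card_pos.ne'
        set m : ℕ := Nat.card G / ℓ ^ (Nat.card G).factorization ℓ with hm
        have hm1 : lpG ℓ G * m = Nat.card G := Nat.ordProj_mul_ordCompl_eq_self (Nat.card G) ℓ
        have hm2 : ¬ ℓ ∣ m := Nat.not_dvd_ordCompl hℓ hG0
        have hχ1 : χ 1 ≠ 0 := irr_one_ne hχI
        have hl0 : ((lpG ℓ G : ℕ) : ℂ) ≠ 0 := by
          have : lpG ℓ G ≠ 0 := by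
            intro h
            rw [h, zero_mul] at hm1
            exact hG0 hm1.symm
          exact_mod_cast this
        have hm0 : (m : ℂ) ≠ 0 := by
          have : m ≠ 0 := by
            intro h
            rw [h] at hm2
            exact hm2 (dvd_zero _)
          exact_mod_cast this
        have hy0 : (y : ℂ) ≠ 0 := by
          have : y ≠ 0 := by
            intro h
            rw [h] at hy
            exact hy (dvd_zero _)
          exact_mod_cast this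
        rw [finsum_eq_sum_of_fintype] at h1
        set T : ℂ := ∑ c : V₀, cv (fc B ⊥ c) χ / (nE E₀ c : ℂ) with hT
        have hRT : R = (Nat.card E₀ : ℂ) * T := by
          rw [hRdef, hT, Finset.mul_sum]
          refine Finset.sum_congr rfl fun c _ => ?_
          obtain ⟨-, hn, -, -⟩ := hix c
          have hE0 : Nat.card E₀ ≠ 0 := Nat.card_pos.ne'
          have hn0 : (nE E₀ c : ℂ) ≠ 0 := by
            have : nE E₀ c ≠ 0 := by
              intro h
              rw [h, zero_mul] at hn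
              exact hE0 hn.symm
            exact_mod_cast this
          have hn' : (nE E₀ c : ℂ) * (Nat.card (Es E₀ c) : ℂ) = (Nat.card E₀ : ℂ) := by
            exact_mod_cast hn
          rw [← hn']
          field_simp
        have hxy' : (y : ℂ) * ((lpG ℓ G : ℕ) * (m : ℂ)) = ℓ ^ 2 * χ 1 * x := by
          rw [← hxy, ← hm1]
          push_cast
          ring
        have h2 : R / (ℓ : ℂ) ^ 2 = (Nat.card E₀ : ℂ) * (χ 1 * T / ((lpG ℓ G : ℕ) : ℂ)) *
            (x : ℂ) * (y : ℂ)⁻¹ * (m : ℂ)⁻¹ := by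
          rw [hRT]
          have h3 : (x : ℂ) = (y : ℂ) * ((lpG ℓ G : ℕ) * (m : ℂ)) / (ℓ ^ 2 * χ 1) := by
            rw [hxy']
            field_simp
          rw [h3]
          field_simp
        rw [h2]
        refine (RM M).mul_mem ((RM M).mul_mem ((RM M).mul_mem ((RM M).mul_mem (rr_nat _).1 h1)
          (rr_nat _).1) (inv_nat_RM hℓ hM hy)) (inv_nat_RM hℓ hM hm2)
      refine ⟨ρ / (ℓ : ℚ) ^ 2, rat_RM hM ?_, ?_⟩
      · rw [← hρ'] at hRM
        push_cast
        exact hRM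
      · rw [← hρ']
        have hℓQ : (ℓ : ℚ) ≠ 0 := by exact_mod_cast hℓ.ne_zero
        have h7 : (ℓ : ℚ) ^ 2 * (ρ / (ℓ : ℚ) ^ 2) = ρ := by field_simp
        rw [h7]
    choose! q hq1 hq2 using hR
    refine ⟨∑ χ ∈ S, q χ, Subring.sum_mem _ hq1, ?_⟩
    rw [finsum_eq_sum_of_fintype]
    have h1 : ∑ c : V₀, (Nat.card (Es E₀ c) : ℂ) * L1 B c =
        ∑ χ ∈ S, ∑ c : V₀, (Nat.card (Es E₀ c) : ℂ) * cv (fc B ⊥ c) χ := by
      rw [Finset.sum_comm]
      refine Finset.sum_congr rfl fun c _ => ?_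
      rw [eL1, Finset.mul_sum]
    rw [h1, Finset.sum_congr rfl hq2, Rat.cast_mul, Rat.cast_sum, Finset.mul_sum]
    refine Finset.sum_congr rfl fun χ _ => ?_
    rw [Rat.cast_mul]

end Pool.Agent.PP.SE.H74
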