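import Pool.Agent.ASE.Stmts9
import Pool.Agent.Helper15_ASO.CMB

/-!
# Squad ASE, row CGF: the comparison datum
-/

open scoped BigOperators

noncomputable section

namespace Pool.Agent.PP.SE.H74

open Pool.Agent.Helper51_AWC Pool.Agent.Helper79_WRA Pool.Agent.PP Pool.Agent.PP.KF
open Pool.Agent.PP.K9 Pool.Agent.PP.K9.H97 Pool.Agent.PP.H75 Pool.Agent.PP.T3 Pool.Agent.PP.SO
open Pool.Agent.PP.SD

attribute [local instance] Ideal.Quotient.field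

theorem mp_bot {V₀ : Type} [CommGroup V₀] (σ : MulAut V₀) (W : Subgroup V₀) :
    mp σ W = ⊥ ↔ W = ⊥ := by
  unfold mp
  constructor
  · intro h
    rw [Subgroup.map_eq_bot_iff] at h
    rw [eq_bot_iff]
    refine h.trans ?_
    intro x hx
    have hx1 : (σ : V₀ ≃* V₀) x = 1 := hx
    rw [Subgroup.mem_bot]
    exact (MulEquiv.map_eq_one_iff (σ : V₀ ≃* V₀)).1 hx1
  · rintro rfl
    rw [Subgroup.map_bot]

/-- row CGF -/
theorem cgf (sxa : SxaStmt) (sxl : SxlStmt) (sxb : SxbStmt) (cgs : CgsStmt) (cen : CenStmt)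
    (peg : PegStmt) (sdg : SdgStmt) (tgg : TggStmt) (lng : LngStmt) (xcg : XcgStmt)
    (exg : ExgStmt) : CgfStmt := by
  intro ℓ _ M _ hM hℓ2 V₀ G _ _ _ _ E₀ hq B hB K U hU1 hU2 hU3
  classical
  have hℓ : ℓ.Prime := Fact.out
  obtain ⟨S, iS, fS, q, φ, hSx, hφ⟩ := sxa ℓ M hM V₀ G E₀ hq B hB.toSb
  obtain ⟨κ, hTh⟩ := sxb ℓ M hM hℓ2 V₀ G S E₀ hq B hB q φ hSx hφ
  obtain ⟨hL1, hL2⟩ := sxl ℓ M hM V₀ G S E₀ hq B hB.toSb q φ hSx hφ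
  subst hφ
  obtain ⟨G', iG', fG', π, j, hCg, hap⟩ := cgs ℓ hℓ2 V₀ S φ hq (K + 1)
    (fun W => if W = ⊥ then 1 else SO.H15.nn ℓ K (U W)) (by
      intro W
      by_cases hW : W = ⊥
      · rw [if_pos hW, sub_self]
        exact dvd_zero _
      · rw [if_neg hW]
        exact SO.H15.nn_dvd ℓ K (U W)) (by
      intro W s
      by_cases hW : W = ⊥
      · rw [if_pos hW, if_pos ((mp_bot _ _).2 hW)]
      · rw [if_neg hW, if_neg fun h => hW ((mp_bot _ _).1 h)]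
        exact congrArg (SO.H15.nn ℓ K) (hU3 W hW (φ s) ⟨s, rfl⟩))
  obtain ⟨-, hKT, -, hcen⟩ := cen ℓ V₀ S G' φ π j hq hCg
  obtain ⟨hSd, hU'⟩ := sdg ℓ M hM V₀ S G' φ _ κ _ π j hq hTh hCg
  obtain ⟨-, htgg⟩ := tgg ℓ M hM V₀ S G' φ _ κ _ π j hq hTh hCg
  have hln := lng ℓ M hM hℓ2 V₀ S G' φ _ κ _ π j hq hTh hCg
  obtain ⟨hXc, -⟩ := xcg ℓ M hM V₀ S G' φ _ κ _ π j hq hTh hCg
  have hEx := exg ℓ M hM V₀ S G' φ _ κ _ π j hq hTh hCg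
  refine ⟨G', iG', fG', BG φ (push q (fun t => B.g t)) (B.D ⊤) π j, xcG ℓ κ π j,
    fun W => KW π j W, hSd, ?_, ?_, hln, hXc, hU', ?_, ?_⟩
  · intro r hr hm
    exact peg ℓ V₀ S G' φ π j hq hCg r hr (hL2 r hr hm)
  · intro E₁ hE₁
    rw [hL1 E₁ hE₁, (htgg E₁ hE₁).2]
  · intro W hW
    obtain ⟨χ, hχ, hχ1⟩ := hEx W hW
    refine ⟨χ, hχ, ?_⟩
    obtain ⟨-, -, -, -, hc1, hc2, -, -, -, -⟩ := hcen W
    obtain ⟨-, -, -, -, hd1, hd2, -, hd3, -, -⟩ := hcen (⊤ : Subgroup V₀)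
    have e1 : Nat.card ((BG φ (push q (fun t => B.g t)) (B.D ⊤) π j).C W) =
        ℓ ^ 2 * (Nat.card φ.ker * nS φ.range W) * KW π j W := by
      rw [← hc2]
      exact hc1
    have e2 : Nat.card ((BG φ (push q (fun t => B.g t)) (B.D ⊤) π j).C ⊤) =
        ℓ ^ 2 * Nat.card φ.ker := by
      have e3 := hd1
      rw [hd3, hKT, mul_one] at e3
      exact e3
    rw [e1, e2, hχ1]
    change (((ℓ ^ 2 * (Nat.card φ.ker * nS φ.range W) * KW π j W : ℕ) : ℂ) * ((B.D ⊤ : ℕ) : ℂ)) /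
      (((ℓ ^ 2 * Nat.card φ.ker : ℕ) : ℂ) * ((nS φ.range W : ℂ) * ((B.D ⊤ : ℕ) : ℂ))) =
      ((KW π j W : ℕ) : ℂ)
    have h1 : (ℓ : ℂ) ≠ 0 := Nat.cast_ne_zero.2 hℓ.ne_zero
    have h2 : (Nat.card φ.ker : ℂ) ≠ 0 := Nat.cast_ne_zero.2 Nat.card_pos.ne'
    have h3 : (nS φ.range W : ℂ) ≠ 0 := by
      have h4 : 1 < nS φ.range W := hW.2
      exact Nat.cast_ne_zero.2 (by omega)
    have h5 : ((B.D ⊤ : ℕ) : ℂ) ≠ 0 := Nat.cast_ne_zero.2 hTh.dp.ne'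
    push_cast
    field_simp
  · intro W hW
    change ∃ q ∈ SOR.Rl ℓ, U W - (KW π j W : ℚ) = ℓ ^ K * q
    by_cases hT : W = ⊤
    · refine ⟨0, (SOR.Rl ℓ).zero_mem, ?_⟩
      rw [hT, hKT, hU1]
      push_cast
      ring
    · obtain ⟨z, hz⟩ := hap W hW hT
      rw [if_neg hW] at hz
      obtain ⟨q', hq1, hq2⟩ := SO.H15.nn_spec ℓ K (U W) (hU2 W hW)
      refine ⟨ℓ * (q' - z), (SOR.Rl ℓ).mul_mem (natCast_mem _ ℓ)
        ((SOR.Rl ℓ).sub_mem hq1 (SO.H15.int_Rl ℓ z)), ?_⟩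
      have hz2 : ((KW π j W : ℤ) : ℚ) - (SO.H15.nn ℓ K (U W) : ℚ) =
          (((ℓ ^ (K + 1) : ℕ) : ℤ) * z : ℤ) := by
        rw [← hz]
        push_cast
        rfl
      push_cast at hz2
      have e : U W - (KW π j W : ℚ) = (U W - SO.H15.nn ℓ K (U W)) -
          ((KW π j W : ℚ) - (SO.H15.nn ℓ K (U W) : ℚ)) := by ring
      rw [e, hz2, hq2]
      ring

end Pool.Agent.PP.SE.H74
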