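import Pool.Agent.ASE.Stmts6
import Pool.Agent.Helper3_ATZ.XCH

/-!
# Squad ASE, row RXE: the numbers `|G| rip(χ, ψ) / χ(1)` and the central character
-/

open scoped BigOperators

noncomputable section

namespace Pool.Agent.PP.SE.H74

open Pool.Agent.Helper51_AWC Pool.Agent.Helper79_WRA Pool.Agent.PP Pool.Agent.PP.KF
open Pool.Agent.PP.K9 Pool.Agent.PP.K9.H97 Pool.Agent.PP.H75 Pool.Agent.PP.T3 Pool.Agent.PP.SO
open Pool.Agent.PP.SD

attribute [local instance] Ideal.Quotient.field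

theorem star_int {z : ℂ} (h : IsIntegral ℤ z) : IsIntegral ℤ (starRingEnd ℂ z) :=
  h.map (starRingEnd ℂ).toIntAlgHom

theorem rxe : RxeStmt := by
  intro ℓ _ M _ hM G _ _ e he ψ hψ χ hχ
  classical
  have := Fintype.ofFinite G
  obtain ⟨w, hw⟩ : ∃ w : G → ℂ, w = fun s => if Reg ℓ s then starRingEnd ℂ (ψ s) else 0 :=
    ⟨_, rfl⟩
  have hwR : ∀ s, w s ∈ RM M := by
    intro s
    rw [hw]
    simp only []
    split_ifs
    · exact RM_of_int (star_int (irr_integral hψ _))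
    · exact Subring.zero_mem _
  have hwc : ∀ c ∈ (⊤ : Subgroup G), ∀ s, w (c * s * c⁻¹) = w s := by
    intro c _ s
    rw [hw]
    simp only []
    by_cases h : Reg ℓ s
    · rw [if_pos h, if_pos (TB.H3.reg_cj s c |>.2 h), irr_conj hψ]
    · rw [if_neg h, if_neg fun h' => h (TB.H3.reg_cj s c |>.1 h')]
  have hG0 : (Nat.card G : ℂ) ≠ 0 := Nat.cast_ne_zero.2 Nat.card_pos.ne'
  have hq : ∀ χ : G → ℂ, (Nat.card G : ℂ) * chv w χ / (Nat.card (⊤ : Subgroup G) * χ 1) =
      (Nat.card G : ℂ) * T5.rip ℓ χ ψ / χ 1 := by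
    intro χ
    have h1 : chv w χ = Nat.card G * T5.rip ℓ χ ψ := by
      unfold chv T5.rip
      rw [mul_inv_cancel_left₀ hG0]
      refine finsum_congr fun s => ?_
      rw [hw]
      simp only []
      by_cases h : Reg ℓ s
      · rw [if_pos h, finsum_eq_if, if_pos h]
        ring
      · rw [if_neg h, finsum_eq_if, if_neg h, zero_mul]
    rw [h1, Subgroup.card_top, mul_div_mul_left _ _ hG0]
  have hG := TB.H3.gen (C := ⊤) he hwc hwR
  refine ⟨?_, fun χ' hχ' => ?_⟩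
  · have := hG.1 χ hχ.1
    rwa [hq] at this
  · have := hG.2 χ hχ χ' hχ'
    rwa [hq, hq] at this

end Pool.Agent.PP.SE.H74
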